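import Mathlib
import Pool.Agent.Helper798.FSeq.Defs
import Pool.Agent.Helper798.FSeq.Affine
import Pool.Agent.Helper798.FSeq.Counts
import Pool.Agent.Helper798.FSeq.Hyper
import Pool.Agent.Helper798.FSeq.Grp
import Pool.Agent.Helper798.FSeq.Final

set_option autoImplicit false


namespace Pool.Agent.Results.MP_3f2714_al.ProductFails

open Pool.Agent.Helper798.FSeq

universe u

/-- The countably infinite vector space over the field with two elements. -/
abbrev V2 : Type := ℕ →₀ ZMod 2

theorem V2_add (x : V2) : x + x = 0 := by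
  ext i
  exact CharTwo.add_self_eq_zero (x i)

theorem aff_iff {n : ℕ} (x y : Fin n ↪ V2) :
    (∃ g ∈ affGroup V2, ∀ i, g (x i) = y i) ↔ code x = code y := by
  constructor
  · exact code_inv (G := affGroup V2) V2_add (fun g hg => hg) x y
  · intro h
    exact homog V2_add x y h

theorem aff_count (n : ℕ) : orbitCount (affGroup V2) n = (CS V2 n).ncard :=
  orbitCount_eq _ (fun x y => aff_iff x y)

theorem aff_pos (n : ℕ) : orbitCount (affGroup V2) n ≠ 0 := by
  rw [aff_count]
  exact ((Set.ncard_pos (Set.toFinite _)).2 (CS_nonempty (X := V2) n)).ne'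

theorem aff_oligo : Oligomorphic (affGroup V2) := by
  apply oligo_of_inj
  intro n
  exact finite_of_ne_zero (aff_pos n)

theorem aff_prim : Primitive (affGroup V2) := by
  have h1 : ∀ n, n ≤ 3 → ∀ x y : Fin n ↪ V2, ∃ g ∈ affGroup V2, ∀ i, g (x i) = y i := by
    intro n hn x y
    rw [aff_iff, code_small V2_add hn, code_small V2_add hn]
  apply primitive_of_two
  · intro x y
    obtain ⟨g, hg, h⟩ := h1 1 (by norm_num) ⟨fun _ => x, fun _ _ _ => Subsingleton.elim _ _⟩
      ⟨fun _ => y, fun _ _ _ => Subsingleton.elim _ _⟩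
    exact ⟨g, hg, h 0⟩
  · intro x y x' y' hxy hxy'
    obtain ⟨g, hg, h⟩ := h1 2 (by norm_num) ⟨![x, y], by
      intro i j hij
      fin_cases i <;> fin_cases j <;> simp_all [eq_comm]⟩ ⟨![x', y'], by
      intro i j hij
      fin_cases i <;> fin_cases j <;> simp_all [eq_comm]⟩
    exact ⟨g, hg, h 0, h 1⟩

/-- There are primitive oligomorphic groups `G₁`, `G₂` such that no oligomorphic group `G` on
an infinite set satisfies `F_n(G) = F_n(G₁) F_n(G₂)` for all `n ≥ 1`. -/
theorem result :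
    ∃ (Ω₁ Ω₂ : Type) (_ : Infinite Ω₁) (_ : Infinite Ω₂)
      (G₁ : Subgroup (Equiv.Perm Ω₁)) (G₂ : Subgroup (Equiv.Perm Ω₂)),
      Countable Ω₁ ∧ Countable Ω₂ ∧ Primitive G₁ ∧ Oligomorphic G₁ ∧ Primitive G₂ ∧ Oligomorphic G₂ ∧
      ∀ (Ω : Type u) [Infinite Ω] (G : Subgroup (Equiv.Perm Ω)), Oligomorphic G →
        ∃ n : ℕ, 1 ≤ n ∧ orbitCount G n ≠ orbitCount G₁ n * orbitCount G₂ n := by
  obtain ⟨E, hE⟩ := exists_extProp
  refine ⟨V2, ℕ, inferInstance, inferInstance, affGroup V2, hypGroup E, inferInstance,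
    inferInstance, aff_prim, aff_oligo, hyp_prim hE, hyp_oligo hE, ?_⟩
  intro Ω _ G _
  by_contra hcon
  push Not at hcon
  have hsmall : ∀ n, 1 ≤ n → n < 12 → orbitCount G n = (CS V2 n).ncard := by
    intro n h1 h2
    rw [hcon n h1, aff_count, hyp_small hE h2, mul_one]
  have hnz : ∀ n, 1 ≤ n → orbitCount G n ≠ 0 := by
    intro n h1
    rw [hcon n h1]
    exact Nat.mul_ne_zero (aff_pos n) (hyp_pos hE n).ne'
  have h3 : orbitCount G 3 = 1 := by
    rw [hsmall 3 (by norm_num) (by norm_num), CS_small V2_add le_rfl]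
  have h4 : orbitCount G 4 = 2 := by
    rw [hsmall 4 (by norm_num) (by norm_num), CS_four V2_add]
  have h5 : orbitCount G 5 ≤ 6 := by
    rw [hsmall 5 (by norm_num) (by norm_num)]
    exact CS_five V2_add
  have h6 : orbitCount G 6 ≤ 32 := by
    rw [hsmall 6 (by norm_num) (by norm_num)]
    exact CS_six V2_add
  obtain ⟨inst, hX, haff⟩ := exists_group h3 h4 h5 (hnz 5 (by norm_num)) h6 (hnz 6 (by norm_num))
  apply final_contra (Ω := Ω) (G := G) hX haff
  · rw [hsmall 11 (by norm_num) (by norm_num), CS_eq V2_add hX]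
  · rw [hcon 12 (by norm_num), aff_count, hyp_twelve hE, CS_eq V2_add hX]
  · rw [hcon 13 (by norm_num), aff_count, CS_eq V2_add hX]
    exact Nat.mul_le_mul_left _ (hyp_thirteen hE)
  · exact hnz 13 (by norm_num)

end Pool.Agent.Results.MP_3f2714_al.ProductFails
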